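import Pool.Agent.Q170.WD.St

/-!
# Project WD (helper170), job CNT
-/

set_option autoImplicit false

namespace Pool.Agent.Q26.WD

open Pool.Agent.Q170.WD Filter Topology

lemma pow_le_choose (m d : ℕ) : m ^ d ≤ (m + d).choose d * d.factorial := by
  calc m ^ d ≤ (m + 1) ^ d := Nat.pow_le_pow_left (Nat.le_succ m) d
    _ ≤ (m + 1).ascFactorial d := Nat.pow_succ_le_ascFactorial (m + 1) d
    _ = (m + d).choose d * d.factorial := by
      rw [Nat.ascFactorial_eq_factorial_mul_choose, mul_comm]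

/-- JOB CNT -/
theorem t_CNT : S_CNT := by
  intro b d δ s c h1 h2
  by_contra hs
  push Not at hs
  have hlim : Tendsto (fun t : ℕ => (s : ℝ) * (((t : ℝ) - c) / t) ^ d) atTop (𝓝 ((s : ℝ) * 1 ^ d)) := by
    apply Tendsto.const_mul
    apply Tendsto.pow
    have h3 : Tendsto (fun t : ℕ => 1 - (c : ℝ) / (t : ℝ)) atTop (𝓝 (1 - 0)) :=
      tendsto_const_nhds.sub (tendsto_const_div_atTop_nhds_zero_nat (c : ℝ))
    rw [sub_zero] at h3
    refine h3.congr' ?_
    filter_upwards [eventually_ge_atTop 1] with t ht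
    have : (t : ℝ) ≠ 0 := by positivity
    field_simp
  rw [one_pow, mul_one] at hlim
  have hlt : (δ : ℝ) + 1 / 2 < s := by
    have : (δ : ℝ) + 1 ≤ s := by exact_mod_cast hs
    linarith
  obtain ⟨t0, ht0⟩ := eventually_atTop.1 (hlim.eventually (lt_mem_nhds hlt))
  obtain ⟨t, ht, htb⟩ := h1 (1 / 2) (by norm_num) (max t0 (max c 1))
  have htc : c ≤ t := le_trans (le_trans (le_max_left _ _) (le_max_right _ _)) ht
  have ht1 : 1 ≤ t := le_trans (le_trans (le_max_right _ _) (le_max_right _ _)) ht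
  have h4 := ht0 t (le_trans (le_max_left _ _) ht)
  have ht' : (0 : ℝ) < t := by exact_mod_cast ht1
  have h5 : (s : ℝ) * ((t : ℝ) - c) ^ d ≤ ((δ : ℝ) + 1 / 2) * (t : ℝ) ^ d := by
    refine le_trans ?_ htb
    have h6 : s * (t - c) ^ d ≤ b t * d.factorial := by
      calc s * (t - c) ^ d ≤ s * ((t - c + d).choose d * d.factorial) :=
            Nat.mul_le_mul_left _ (pow_le_choose _ _)
        _ = s * (t - c + d).choose d * d.factorial := by ring
        _ ≤ b t * d.factorial := Nat.mul_le_mul_right _ (h2 t htc)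
    have h7 : ((s * (t - c) ^ d : ℕ) : ℝ) ≤ ((b t * d.factorial : ℕ) : ℝ) := by exact_mod_cast h6
    push_cast [Nat.cast_sub htc] at h7
    exact h7
  rw [div_pow, ← mul_div_assoc, lt_div_iff₀ (by positivity)] at h4
  linarith

end Pool.Agent.Q26.WD
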