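import Pool.Agent.Q170.WD.St

/-!
# Project WD (helper170), job ZERO
-/

set_option autoImplicit false

namespace Pool.Agent.Q26.WD

open Algebra MvPolynomial Pool.Agent.Q170.WD

/-- JOB ZERO -/
theorem t_ZERO : S_ZERO := by
  intro L _ _ N Q hQ hd x hx y hy
  have hdom : IsDomain (MvPolynomial (Fin N) L ⧸ Q) := Ideal.Quotient.isDomain Q
  have hd' : Algebra.trdeg L (MvPolynomial (Fin N) L ⧸ Q) = 0 := by
    have h : Algebra.trdeg L (MvPolynomial (Fin N) L ⧸ Q) = ((0 : ℕ) : Cardinal) := hd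
    simpa using h
  have halg : Algebra.IsAlgebraic L (MvPolynomial (Fin N) L ⧸ Q) :=
    trdeg_eq_zero_iff.1 hd'
  have hint : Algebra.IsIntegral L (MvPolynomial (Fin N) L ⧸ Q) := halg.isIntegral
  have hs := (IsAlgClosed.algebraMap_bijective_of_isIntegral (k := L)
    (K := MvPolynomial (Fin N) L ⧸ Q)).2
  funext i
  obtain ⟨c, hc⟩ := hs (Ideal.Quotient.mk Q (X i))
  have h1 : (X i - C c : MvPolynomial (Fin N) L) ∈ Q := by
    rw [← Ideal.Quotient.eq, ← hc]
    rfl
  have h2 := hx _ h1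
  have h3 := hy _ h1
  rw [map_sub, eval_X, eval_C, sub_eq_zero] at h2 h3
  rw [h2, h3]

end Pool.Agent.Q26.WD
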